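import Pool.Agent.Helper70.MB.Goals

/-!
# Packet MB-TAIL
-/

open MeasureTheory Set Metric
open scoped ENNReal FourierTransform Topology ContDiff
open Pool.Agent.Results.MP_91ee6f_gt
open Pool.Agent.Helper70.MB

namespace Pool.Agent.Helper42.MB

lemma kap_le_pow {n : ℕ} {z : En n} {a : ℝ} (ha : 0 < a) (h : 1 / a ≤ ‖z‖) :
    kap z ≤ a ^ (2 * n + 1) := by
  have hz : 0 < ‖z‖ := lt_of_lt_of_le (by positivity) h
  unfold kap
  rw [div_le_iff₀ (by positivity), ← mul_pow]
  have h1 : 1 ≤ a * ‖z‖ := by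
    rwa [div_le_iff₀ ha, mul_comm] at h
  exact (Real.exp_le_one_iff.2 (by linarith)).trans (one_le_pow₀ h1)

lemma continuous_gg {n : ℕ} (τ : Measure (En n)) [IsFiniteMeasure τ] : Continuous (gg τ) := by
  unfold gg
  exact (Pool.Agent.Helper61.MM.continuous_potential_En τ).sub continuous_const

lemma integrable_cut_sq {n : ℕ} (τ : Measure (En n)) [IsFiniteMeasure τ] (x₀ : En n) {r : ℝ}
    (hr : 0 < r) : Integrable (fun x => cut x₀ r x ^ 2 * |gg τ x|) := by
  have hc : Continuous (fun x => cut x₀ r x ^ 2 * |gg τ x|) :=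
    ((isCut_cut x₀ hr).1.continuous.pow 2).mul (continuous_gg τ).abs
  refine hc.integrable_of_hasCompactSupport ?_
  refine HasCompactSupport.of_support_subset_isCompact (isCompact_closedBall x₀ (2 * r))
    fun x hx => ?_
  rw [mem_closedBall, dist_eq_norm]
  by_contra h
  apply hx
  show cut x₀ r x ^ 2 * |gg τ x| = 0
  rw [cut_zero hr (not_le.1 h).le]
  ring

/-- The scale of a point between two radii. -/
lemma exists_scale {M t : ℝ} {j : ℕ} (hM : t < M) (hj : M / 4 ^ j < t) :
    ∃ i < j, M / 4 ^ (i + 1) ≤ t ∧ t < M / 4 ^ i := by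
  induction j with
  | zero => simp at hj; linarith
  | succ j ih =>
    by_cases h : M / 4 ^ j < t
    · obtain ⟨i, hi, h1⟩ := ih h
      exact ⟨i, by omega, h1⟩
    · rcases lt_or_eq_of_le (not_lt.1 h) with h1 | h1
      · exact ⟨j, by omega, hj.le, h1⟩
      · cases j with
        | zero => simp at h1; linarith
        | succ i =>
          refine ⟨i, by omega, h1.ge, ?_⟩
          rw [h1]
          have hM0 : 0 < M := by
            by_contra h2
            have h3 : M / 4 ^ (i + 1) ≤ M / 4 ^ (i + 1 + 1) := by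
              rw [div_le_div_iff₀ (by positivity) (by positivity)]
              have : (4 : ℝ) ^ (i + 1) ≤ 4 ^ (i + 1 + 1) := pow_le_pow_right₀ (by norm_num)
                (by omega)
              nlinarith
            linarith
          apply div_lt_div_of_pos_left hM0 (by positivity)
          exact pow_lt_pow_right₀ (by norm_num) (by omega)

/-- Packet MB-TAIL. -/
theorem tail : BDD → KAPI → TAIL := by
  intro hB hK n hn C hC
  obtain ⟨C₁, hC₁, hB⟩ := hB n hn
  obtain ⟨hK1, C₂, hC₂, hK2⟩ := hK n hn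
  refine ⟨max 1 (32 * (C * (C₁ * C₂))), le_max_left _ _, ?_⟩
  intro M hM X τ hτ x₀ j y hy
  haveI := hτ.fin
  have hM1 : 1 ≤ M := (le_max_left _ _).trans hM
  have hM2 : 32 * (C * (C₁ * C₂)) ≤ M := (le_max_right _ _).trans hM
  have hM0 : 0 < M := by linarith
  have hg : ∀ x, |gg τ x| ≤ C₁ := (hB X τ hτ).1
  set ρ : ℝ := M / 4 ^ j with hρ
  have hρ0 : 0 < ρ := by positivity
  have hρM : ρ ≤ M := div_le_self hM0.le (one_le_pow₀ (by norm_num))
  set S : Set (En n) := {z | M / 2 ≤ ‖z‖} with hS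
  have hSm : MeasurableSet S := measurableSet_le measurable_const measurable_norm
  have hkS : Integrable (S.indicator (kap : En n → ℝ)) :=
    (hK1 (M / 2) (by linarith)).integrable_indicator hSm
  have hkSy : Integrable (fun x => S.indicator (kap : En n → ℝ) (x - y)) :=
    hkS.comp_sub_right y
  set w : ℕ → ℝ := fun i => 2 ^ (2 * n + 1) * (4 ^ (i + 1) / M) ^ (2 * n + 1) with hw
  have hw0 : ∀ i, 0 ≤ w i := fun i => by positivity
  set G : En n → ℝ := fun x => S.indicator (kap : En n → ℝ) (x - y) * C₁ +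
    ∑ i ∈ Finset.range j, w i * (cut x₀ (M / 4 ^ i) x ^ 2 * |gg τ x|) with hG
  have hsumI : Integrable (fun x => ∑ i ∈ Finset.range j,
      w i * (cut x₀ (M / 4 ^ i) x ^ 2 * |gg τ x|)) :=
    integrable_finset_sum _ fun i _ => (integrable_cut_sq τ x₀ (by positivity)).const_mul _
  have hGi : Integrable G := (hkSy.mul_const C₁).add hsumI
  have hS0 : ∀ z, 0 ≤ S.indicator (kap : En n → ℝ) z := fun z =>
    indicator_nonneg (fun z _ => kap_nonneg z) z
  have hT0 : ∀ i x, 0 ≤ w i * (cut x₀ (M / 4 ^ i) x ^ 2 * |gg τ x|) := fun i x =>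
    mul_nonneg (hw0 i) (mul_nonneg (sq_nonneg _) (abs_nonneg _))
  have hF0 : ∀ x, 0 ≤ kap (x - y) * ((1 - cut x₀ ρ x) * |gg τ x|) := fun x =>
    mul_nonneg (kap_nonneg _) (mul_nonneg (by linarith [cut_le_one x₀ ρ x]) (abs_nonneg _))
  have hle : ∀ x, kap (x - y) * ((1 - cut x₀ ρ x) * |gg τ x|) ≤ G x := by
    intro x
    have hs0 : 0 ≤ ∑ i ∈ Finset.range j, w i * (cut x₀ (M / 4 ^ i) x ^ 2 * |gg τ x|) :=
      Finset.sum_nonneg fun i _ => hT0 i x
    have hi0 : 0 ≤ S.indicator (kap : En n → ℝ) (x - y) * C₁ := mul_nonneg (hS0 _) hC₁.le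
    have hxy : ‖x - x₀‖ ≤ ‖x - y‖ + ‖y - x₀‖ := by
      have := norm_add_le (x - y) (y - x₀)
      simpa using this
    by_cases h1 : ‖x - x₀‖ ≤ ρ
    · rw [cut_one hρ0 h1]
      simp only [sub_self, zero_mul, mul_zero]
      exact add_nonneg hi0 hs0
    · have h1' : ρ < ‖x - x₀‖ := not_le.1 h1
      have hcle : (1 - cut x₀ ρ x) * |gg τ x| ≤ |gg τ x| := by
        have := cut_nonneg x₀ ρ x
        nlinarith [abs_nonneg (gg τ x)]
      by_cases h2 : M ≤ ‖x - x₀‖
      · have h3 : x - y ∈ S := by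
          show M / 2 ≤ ‖x - y‖
          linarith
        have h4 : kap (x - y) * ((1 - cut x₀ ρ x) * |gg τ x|) ≤
            S.indicator (kap : En n → ℝ) (x - y) * C₁ := by
          rw [indicator_of_mem h3]
          exact mul_le_mul_of_nonneg_left (hcle.trans (hg x)) (kap_nonneg _)
        show _ ≤ _ + _
        linarith
      · obtain ⟨i, hi, h3, h4⟩ := exists_scale (not_le.1 h2) h1'
        have h5 : kap (x - y) ≤ w i := by
          have e : w i = (2 * (4 ^ (i + 1) / M)) ^ (2 * n + 1) := by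
            rw [hw, mul_pow]
          rw [e]
          apply kap_le_pow (by positivity)
          have e2 : 1 / (2 * (4 ^ (i + 1) / M)) = M / 4 ^ (i + 1) / 2 := by
            field_simp
          rw [e2]
          linarith
        have h6 : w i * (cut x₀ (M / 4 ^ i) x ^ 2 * |gg τ x|) ≤
            ∑ i ∈ Finset.range j, w i * (cut x₀ (M / 4 ^ i) x ^ 2 * |gg τ x|) :=
          Finset.single_le_sum (f := fun i => w i * (cut x₀ (M / 4 ^ i) x ^ 2 * |gg τ x|))
            (fun i _ => hT0 i x) (Finset.mem_range.2 hi)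
        rw [cut_one (by positivity) h4.le, one_pow, one_mul] at h6
        have h7 : kap (x - y) * ((1 - cut x₀ ρ x) * |gg τ x|) ≤ w i * |gg τ x| :=
          (mul_le_mul_of_nonneg_left hcle (kap_nonneg _)).trans
            (mul_le_mul_of_nonneg_right h5 (abs_nonneg _))
        show _ ≤ _ + _
        linarith
  have hint : tl τ x₀ ρ y ≤ ∫ x, G x :=
    integral_mono_of_nonneg (Filter.Eventually.of_forall hF0) hGi (Filter.Eventually.of_forall hle)
  have hGint : ∫ x, G x = (∫ z in S, kap z) * C₁ +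
      ∑ i ∈ Finset.range j, w i * ∫ x, cut x₀ (M / 4 ^ i) x ^ 2 * |gg τ x| := by
    rw [hG, integral_add (hkSy.mul_const C₁) hsumI, integral_mul_const,
      integral_sub_right_eq_self (fun x => S.indicator (kap : En n → ℝ) x) y,
      integral_indicator hSm, integral_finset_sum _ fun i _ =>
        (integrable_cut_sq τ x₀ (by positivity)).const_mul _]
    congr 1
    exact Finset.sum_congr rfl fun i _ => integral_const_mul _ _
  have hk : ∫ z in S, kap z ≤ C₂ * Real.exp (-(M / 2 / 4)) := hK2 (M / 2) (by linarith)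
  have hexp : Real.exp (-(M / 2 / 4)) ≤ 8 / M := by
    rw [Real.exp_neg, ← one_div, div_le_div_iff₀ (Real.exp_pos _) hM0]
    have := Real.add_one_le_exp (M / 2 / 4)
    linarith
  have hfin : C * ((∫ z in S, kap z) * C₁) ≤ 1 / 4 := by
    have h1 : (∫ z in S, kap z) * C₁ ≤ C₂ * (8 / M) * C₁ :=
      mul_le_mul_of_nonneg_right (hk.trans (mul_le_mul_of_nonneg_left hexp hC₂.le)) hC₁.le
    have h2 : C * ((∫ z in S, kap z) * C₁) ≤ C * (C₂ * (8 / M) * C₁) :=
      mul_le_mul_of_nonneg_left h1 hC.le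
    refine h2.trans ?_
    have e : C * (C₂ * (8 / M) * C₁) = 8 * (C * (C₁ * C₂)) / M := by ring
    rw [e, div_le_iff₀ hM0]
    linarith
  calc C * tl τ x₀ ρ y ≤ C * ∫ x, G x := mul_le_mul_of_nonneg_left hint hC.le
    _ = C * ((∫ z in S, kap z) * C₁) +
        C * ∑ i ∈ Finset.range j, w i * ∫ x, cut x₀ (M / 4 ^ i) x ^ 2 * |gg τ x| := by
        rw [hGint]; ring
    _ ≤ _ := by
        have : C * ∑ i ∈ Finset.range j, w i * ∫ x, cut x₀ (M / 4 ^ i) x ^ 2 * |gg τ x| =
          C * ∑ i ∈ Finset.range j, 2 ^ (2 * n + 1) * (4 ^ (i + 1) / M) ^ (2 * n + 1) *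
            ∫ x, cut x₀ (M / 4 ^ i) x ^ 2 * |gg τ x| := rfl
        linarith

end Pool.Agent.Helper42.MB
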